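import Pool.Agent.Helper92.FR.GoalsA

/-!
# FR, packet DEC
-/

namespace Pool.Agent.Helper8.FR

open Pool.Agent.Helper92.FR Matrix

variable {N d : ℕ}

theorem aa_add (C : Fin N → Fin d → ℝ) (S lam u : Fin d → ℝ) (j : Fin N ⊕ Fin d) :
    aa C S (fun i => lam i + u i) j = aa C S lam j + ∑ i, u i * col C S j i := by
  unfold aa
  rw [← Finset.sum_add_distrib]
  exact Finset.sum_congr rfl fun i _ => by ring

theorem quad (C : Fin N → Fin d → ℝ) (S lam u : Fin d → ℝ) :
    ∑ j, (1 / (1 + |aa C S lam j|) * ∑ i, u i * col C S j i) ^ 2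
      = u ⬝ᵥ (HH C S lam).mulVec u := by
  unfold HH dotProduct Matrix.mulVec dotProduct
  have h1 : ∀ j, (1 / (1 + |aa C S lam j|) * ∑ i, u i * col C S j i) ^ 2 =
      ∑ i, ∑ i', u i * ((1 / (1 + |aa C S lam j|)) ^ 2 * (col C S j i * col C S j i') * u i') := by
    intro j
    rw [mul_pow, sq (∑ i, u i * col C S j i), Finset.sum_mul_sum, Finset.mul_sum]
    refine Finset.sum_congr rfl fun i _ => ?_
    rw [Finset.mul_sum]
    exact Finset.sum_congr rfl fun i' _ => by ring
  simp_rw [h1]
  rw [Finset.sum_comm]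
  refine Finset.sum_congr rfl fun i _ => ?_
  rw [Finset.sum_comm, Finset.mul_sum]
  refine Finset.sum_congr rfl fun i' _ => ?_
  rw [Finset.sum_mul, Finset.mul_sum]

theorem dec (hTRU : TruStmt) : DecStmt := by
  intro N d C S e lam T ε hNor hε hε1 hmin
  obtain ⟨h, hh, hT⟩ := hNor
  set y : Fin d → ℝ := T.mulVec (gg C S e lam) with hy
  set P : ℝ := ∑ i, y i ^ 2 with hP
  have hP0 : 0 ≤ P := Finset.sum_nonneg fun i _ => sq_nonneg _
  -- the quadratic form
  have hquad : ∀ s : ℝ, ∑ j, (1 / (1 + |aa C S lam j|) *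
      ∑ i, (-(s * (Tᵀ).mulVec y i)) * col C S j i) ^ 2 ≤ 4 * s ^ 2 * P := by
    intro s
    have h1 := quad C S lam (fun i => -(s * (Tᵀ).mulVec y i))
    rw [h1]
    have h2 : (fun i => -(s * (Tᵀ).mulVec y i)) = (-s) • (Tᵀ).mulVec y := by
      funext i
      simp
    rw [h2, Matrix.mulVec_smul, smul_dotProduct, dotProduct_smul, smul_eq_mul, smul_eq_mul]
    have h3 : (Tᵀ).mulVec y ⬝ᵥ (HH C S lam).mulVec ((Tᵀ).mulVec y) = ∑ i, h i * y i ^ 2 := by
      have h4 : (Tᵀ).mulVec y ⬝ᵥ (HH C S lam).mulVec ((Tᵀ).mulVec y)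
          = y ⬝ᵥ (T * HH C S lam * Tᵀ).mulVec y := by
        rw [← Matrix.mulVec_mulVec, ← Matrix.mulVec_mulVec, Matrix.dotProduct_mulVec y,
          Matrix.mulVec_transpose]
      have h5 : T * HH C S lam * Tᵀ = Matrix.diagonal h := hT
      rw [h4, h5]
      simp only [dotProduct, Matrix.mulVec_diagonal]
      exact Finset.sum_congr rfl fun i _ => by ring
    rw [h3]
    have h6 : ∑ i, h i * y i ^ 2 ≤ 4 * P := by
      rw [hP, Finset.mul_sum]
      exact Finset.sum_le_sum fun i _ => mul_le_mul_of_nonneg_right (hh i).2 (sq_nonneg _)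
    nlinarith [sq_nonneg s]
  -- the linear term
  have hlin : ∀ s : ℝ, ∑ i, gg C S e lam i * (-(s * (Tᵀ).mulVec y i)) = -(s * P) := by
    intro s
    have h1 : ∑ i, gg C S e lam i * (-(s * (Tᵀ).mulVec y i)) =
        -(s * (gg C S e lam ⬝ᵥ (Tᵀ).mulVec y)) := by
      simp only [dotProduct]
      rw [Finset.mul_sum, ← Finset.sum_neg_distrib]
      exact Finset.sum_congr rfl fun i _ => by ring
    rw [h1, Matrix.dotProduct_mulVec, Matrix.vecMul_transpose, ← hy]
    congr 2
    rw [hP]
    simp only [dotProduct]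
    exact Finset.sum_congr rfl fun i _ => by ring
  have key : ∀ s : ℝ, 16 * s ^ 2 * P ≤ 1 → s * P - 18 * s ^ 2 * P ≤ ε := by
    intro s hs
    set u : Fin d → ℝ := fun i => -(s * (Tᵀ).mulVec y i) with hu
    have hq := hquad s
    have hb : ∀ j, (1 / (1 + |aa C S lam j|) * ∑ i, u i * col C S j i) ^ 2 ≤ 1 / 4 := by
      intro j
      have h1 : (1 / (1 + |aa C S lam j|) * ∑ i, u i * col C S j i) ^ 2 ≤
          ∑ j, (1 / (1 + |aa C S lam j|) * ∑ i, u i * col C S j i) ^ 2 :=
        Finset.single_le_sum (f := fun j => (1 / (1 + |aa C S lam j|) *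
          ∑ i, u i * col C S j i) ^ 2) (fun j _ => sq_nonneg _) (Finset.mem_univ j)
      have h2 : 4 * s ^ 2 * P ≤ 1 / 4 := by linarith
      exact h1.trans (hq.trans h2)
    have hG : ∀ j, GG (aa C S (fun i => lam i + u i) j) ≤ GG (aa C S lam j) +
        (∑ i, u i * col C S j i) * mm (aa C S lam j) +
        9 / 2 * (1 / (1 + |aa C S lam j|) * ∑ i, u i * col C S j i) ^ 2 := by
      intro j
      rw [aa_add]
      have hpos : 0 < 1 + |aa C S lam j| := by positivity
      have h1 : |∑ i, u i * col C S j i| ≤ (1 + |aa C S lam j|) / 2 := by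
        have h2 := hb j
        rw [mul_pow, div_pow, one_pow] at h2
        rw [one_div, inv_mul_le_iff₀ (by positivity)] at h2
        apply abs_le_of_sq_le_sq _ (by positivity)
        nlinarith
      have h3 := hTRU (aa C S lam j) (∑ i, u i * col C S j i) h1
      refine h3.trans (le_of_eq ?_)
      rw [mul_pow, div_pow, one_pow]
      ring
    have hF : FF C S e (fun i => lam i + u i) ≤ FF C S e lam + ∑ i, gg C S e lam i * u i +
        9 / 2 * ∑ j, (1 / (1 + |aa C S lam j|) * ∑ i, u i * col C S j i) ^ 2 := by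
      unfold FF
      have h1 := Finset.sum_le_sum fun j (_ : j ∈ Finset.univ) => hG j
      rw [Finset.sum_add_distrib, Finset.sum_add_distrib, ← Finset.mul_sum] at h1
      have h2 : ∑ i, (lam i + u i) * e i = ∑ i, lam i * e i + ∑ i, u i * e i := by
        rw [← Finset.sum_add_distrib]
        exact Finset.sum_congr rfl fun i _ => by ring
      have h3 : ∑ i, gg C S e lam i * u i =
          ∑ j, (∑ i, u i * col C S j i) * mm (aa C S lam j) - ∑ i, u i * e i := by
        unfold gg
        have h4 : ∀ i, ((∑ j, mm (aa C S lam j) * col C S j i) - e i) * u i =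
            (∑ j, mm (aa C S lam j) * col C S j i * u i) - u i * e i := by
          intro i
          rw [sub_mul, Finset.sum_mul]
          ring
        simp_rw [h4]
        rw [Finset.sum_sub_distrib, Finset.sum_comm]
        congr 1
        refine Finset.sum_congr rfl fun j _ => ?_
        rw [Finset.sum_mul]
        exact Finset.sum_congr rfl fun i _ => by ring
      rw [h2, h3]
      linarith
    have hm := hmin (fun i => lam i + u i)
    have hl := hlin s
    have : ∑ i, gg C S e lam i * u i = -(s * P) := hl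
    rw [this] at hF
    linarith
  rcases le_or_gt P 81 with hc | hc
  · have := key (1 / 36) (by nlinarith)
    nlinarith
  · exfalso
    set Y := Real.sqrt P with hY
    have hYP : Y ^ 2 = P := Real.sq_sqrt hP0
    have hY9 : 9 < Y := by
      rw [hY]
      apply Real.lt_sqrt_of_sq_lt
      linarith
    have hYpos : 0 < Y := by linarith
    have h1 := key (1 / (4 * Y)) (by
      rw [← hYP]
      have : 16 * (1 / (4 * Y)) ^ 2 * Y ^ 2 = 1 := by
        field_simp
        norm_num
      linarith)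
    rw [← hYP] at h1
    have h2 : 1 / (4 * Y) * Y ^ 2 - 18 * (1 / (4 * Y)) ^ 2 * Y ^ 2 = Y / 4 - 9 / 8 := by
      field_simp
      ring
    rw [h2] at h1
    linarith

end Pool.Agent.Helper8.FR
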